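import Pool.Agent.helper36.MP.SpecN

/-!
# Project mp: (MP_af9036_an): MI, measurability and integrability
-/

set_option autoImplicit false

open Complex Metric Set Filter Topology MeasureTheory

noncomputable section

namespace MPS

theorem MI_int0 (R : ℝ) : IntegrableOn (fun z : ℂ => 1 / ‖z‖) (ball 0 R) := by
  rw [integrableOn_fun_norm_addHaar (μ := (volume : Measure ℂ)) (f := fun y : ℝ => 1 / y)]
  have h : EqOn (fun _ : ℝ => (1 : ℝ)) (fun y : ℝ => y ^ (Module.finrank ℝ ℂ - 1) • (1 / y))
      (Ioo 0 R) := by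
    intro y hy
    have hy0 : y ≠ 0 := hy.1.ne'
    simp only [Complex.finrank_real_complex, smul_eq_mul]
    norm_num
    field_simp
  refine IntegrableOn.congr_fun ?_ h measurableSet_Ioo
  exact integrableOn_const (by simp) (by simp)

theorem MI_val0 (R : ℝ) (hR : 0 ≤ R) : ∫ z in ball (0 : ℂ) R, 1 / ‖z‖ = 2 * Real.pi * R := by
  have h1 : ∫ z in ball (0 : ℂ) R, 1 / ‖z‖ =
      ∫ z : ℂ, ((Iio R).indicator (fun y : ℝ => 1 / y)) ‖z‖ := by
    rw [← integral_indicator measurableSet_ball]
    refine integral_congr_ae (Eventually.of_forall fun z => ?_)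
    simp [indicator]
  rw [h1, integral_fun_norm_addHaar]
  have h2 : ∫ y in Ioi (0 : ℝ), y ^ (Module.finrank ℝ ℂ - 1) •
      (Iio R).indicator (fun y : ℝ => 1 / y) y = R := by
    have h3 : ∫ y in Ioi (0 : ℝ), y ^ (Module.finrank ℝ ℂ - 1) •
        (Iio R).indicator (fun y : ℝ => 1 / y) y =
        ∫ y in Ioi (0 : ℝ), (Iio R).indicator (fun _ : ℝ => (1 : ℝ)) y := by
      refine setIntegral_congr_fun measurableSet_Ioi fun y hy => ?_
      have hy0 : y ≠ 0 := (ne_of_gt hy)
      by_cases hyR : y ∈ Iio R
      · simp only [indicator_of_mem hyR, Complex.finrank_real_complex, smul_eq_mul]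
        norm_num
        field_simp
      · simp only [indicator_of_notMem hyR, smul_zero]
    rw [h3, setIntegral_indicator measurableSet_Iio, Ioi_inter_Iio]
    simp [hR]
  rw [h2]
  have h4 : (volume : Measure ℂ).real (ball 0 1) = Real.pi := by
    rw [Measure.real, Complex.volume_ball]
    simp
  rw [h4, Complex.finrank_real_complex]
  simp only [smul_eq_mul, nsmul_eq_mul]
  push_cast
  ring

theorem MI_pre (a : ℂ) (R : ℝ) : (fun z : ℂ => z - a) ⁻¹' ball 0 R = ball a R := by
  ext z
  simp [dist_eq_norm]

theorem MI_int (a : ℂ) (R : ℝ) : IntegrableOn (fun z : ℂ => 1 / ‖z - a‖) (ball a R) := by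
  have h := (measurePreserving_sub_right (volume : Measure ℂ) a).integrableOn_comp_preimage
    (MeasurableEquiv.subRight a).measurableEmbedding (f := fun z : ℂ => 1 / ‖z‖) (s := ball 0 R)
  rw [MI_pre] at h
  exact h.2 (MI_int0 R)

theorem MI_val (a : ℂ) (R : ℝ) (hR : 0 ≤ R) :
    ∫ z in ball a R, 1 / ‖z - a‖ = 2 * Real.pi * R := by
  have h := (measurePreserving_sub_right (volume : Measure ℂ) a).setIntegral_preimage_emb
    (MeasurableEquiv.subRight a).measurableEmbedding (fun z : ℂ => 1 / ‖z‖) (ball 0 R)
  rw [MI_pre] at h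
  rw [← MI_val0 R hR]
  exact h

theorem MI_pole (d p a : ℂ) (R : ℝ) : IntegrableOn (fun z : ℂ => d / (z - p)) (ball a R) := by
  have h1 : IntegrableOn (fun z : ℂ => 1 / ‖z - p‖) (ball a R) := by
    refine (MI_int p (R + dist a p)).mono_set ?_
    exact ball_subset_ball' le_rfl
  have h2 : IntegrableOn (fun z : ℂ => ‖d‖ * (1 / ‖z - p‖)) (ball a R) := h1.const_mul _
  refine Integrable.mono h2 ?_ ?_
  · exact (Measurable.aestronglyMeasurable (by fun_prop))
  · refine Eventually.of_forall fun z => ?_
    rw [norm_div, Real.norm_of_nonneg (by positivity)]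
    rw [mul_one_div]

theorem MI : MI_stmt := by
  refine ⟨fun n k _ c b g => ?_, fun a R hR => ⟨MI_int a R, MI_val a R hR⟩⟩
  have hB : Measurable (BB b g) := by
    unfold BB
    refine Finset.measurable_fun_sum _ fun i _ => ?_
    fun_prop
  have hE : Measurable (er n c b g) := by
    unfold er
    refine Measurable.add ?_ (by fun_prop)
    refine Finset.measurable_fun_sum _ fun i _ => ?_
    fun_prop
  refine ⟨hB, hE, ?_, fun a R => ?_⟩
  · unfold Df
    refine Measurable.sub ?_ ?_
    · refine Finset.measurable_fun_sum _ fun j _ => ?_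
      have hr : Measurable fun z : ℂ => om n ^ j * rt n (z - c) := by
        unfold rt
        exact measurable_const.mul ((measurable_id.sub_const c).pow_const _)
      refine Measurable.div ?_ ?_
      · exact (hB.comp hr).norm
      · refine Measurable.pow_const (Measurable.norm ?_) 2
        unfold fd
        exact measurable_const.mul (hr.pow_const _)
    · exact (hB.sub hE).norm
  · unfold er
    refine Integrable.add ?_ (MI_pole _ _ _ _)
    exact integrable_finsetSum _ fun i _ => MI_pole _ _ _ _

end MPS
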