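import Pool.Agent.helper36.MP.SpecZ

/-!
# Project mp: (MP_af9036_an): ZC0, holomorphic continuation of simple roots over a disc
-/

set_option autoImplicit false

open Complex Metric Set Filter Topology MeasureTheory

noncomputable section

namespace MPS

/-- the polynomial map with coefficients `q m`. -/
def ZC0_G (N : ℕ) (q : ℕ → ℂ → ℂ) (p : ℂ × ℂ) : ℂ :=
  ∑ m ∈ Finset.range (N + 1), q m p.1 * p.2 ^ m

theorem ZC0_bound (N : ℕ) (hN : 1 ≤ N) (q : ℕ → ℂ) (hq : q N = 1) (z w : ℂ) (M : ℝ)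
    (B : ℕ → ℝ) (hB : ∀ m, ‖q m‖ ≤ B m) (hM : ‖w‖ ≤ M)
    (h : ∑ m ∈ Finset.range (N + 1), q m * z ^ m = w) :
    ‖z‖ ≤ 1 + (M + ∑ m ∈ Finset.range N, B m) := by
  have hM0 : 0 ≤ M := (norm_nonneg _).trans hM
  have hB0 : ∀ m, 0 ≤ B m := fun m => (norm_nonneg _).trans (hB m)
  have hS0 : 0 ≤ ∑ m ∈ Finset.range N, B m := Finset.sum_nonneg fun m _ => hB0 m
  rcases le_or_gt ‖z‖ 1 with h1 | h1
  · linarith
  rw [Finset.sum_range_succ, hq, one_mul] at h
  have h2 : z ^ N = w - ∑ m ∈ Finset.range N, q m * z ^ m := by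
    rw [← h]
    ring
  have h3 : ‖z‖ ^ N ≤ (M + ∑ m ∈ Finset.range N, B m) * ‖z‖ ^ (N - 1) := by
    rw [← norm_pow, h2]
    refine (norm_sub_le _ _).trans ?_
    rw [add_mul, Finset.sum_mul]
    refine add_le_add ?_ ?_
    · calc ‖w‖ ≤ M * 1 := by rw [mul_one]; exact hM
        _ ≤ M * ‖z‖ ^ (N - 1) := by
          gcongr
          exact one_le_pow₀ h1.le
    · refine (norm_sum_le _ _).trans (Finset.sum_le_sum fun m hm => ?_)
      rw [Finset.mem_range] at hm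
      rw [norm_mul, norm_pow]
      have h4 : ‖z‖ ^ m ≤ ‖z‖ ^ (N - 1) := pow_le_pow_right₀ h1.le (by omega)
      exact mul_le_mul (hB m) h4 (by positivity) (hB0 m)
  have h5 : ‖z‖ ^ N = ‖z‖ * ‖z‖ ^ (N - 1) := by
    rw [← pow_succ', Nat.sub_add_cancel hN]
  rw [h5] at h3
  have h6 : 0 < ‖z‖ ^ (N - 1) := by positivity
  have h7 := le_of_mul_le_mul_right h3 h6
  linarith

theorem ZC0_cont (N : ℕ) (q : ℕ → ℂ → ℂ) (hc : ∀ m, Continuous (q m)) :
    Continuous (fun p : ℂ × ℂ => (p.1, ZC0_G N q p)) := by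
  unfold ZC0_G
  refine continuous_fst.prodMk (continuous_finset_sum _ fun m _ => ?_)
  exact ((hc m).comp continuous_fst).mul (continuous_snd.pow m)

theorem ZC0_closed (N : ℕ) (hN : 1 ≤ N) (q : ℕ → ℂ → ℂ) (hc : ∀ m, Continuous (q m))
    (hq : ∀ a, q N a = 1) : IsClosedMap (fun p : ℂ × ℂ => (p.1, ZC0_G N q p)) := by
  refine IsProperMap.isClosedMap ?_
  rw [isProperMap_iff_isCompact_preimage]
  refine ⟨ZC0_cont N q hc, fun K hK => ?_⟩
  have hK1 : IsCompact (Prod.fst '' K) := hK.image continuous_fst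
  have hb : ∀ m, ∃ B : ℝ, ∀ a ∈ Prod.fst '' K, ‖q m a‖ ≤ B := fun m =>
    hK1.exists_bound_of_continuousOn (hc m).continuousOn
  choose B hB using hb
  obtain ⟨M, hM⟩ := hK.exists_bound_of_continuousOn continuous_snd.continuousOn
  refine IsCompact.of_isClosed_subset
    (hK1.prod (isCompact_closedBall (0 : ℂ) (1 + (M + ∑ m ∈ Finset.range N, B m))))
    (hK.isClosed.preimage (ZC0_cont N q hc)) ?_
  rintro ⟨a, z⟩ haz
  have ha : a ∈ Prod.fst '' K := ⟨_, haz, rfl⟩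
  refine ⟨ha, ?_⟩
  rw [mem_closedBall_zero_iff]
  exact ZC0_bound N hN (fun m => q m a) (hq a) z _ M B (fun m => hB m a ha) (hM _ haz) rfl

theorem ZC0_strict (N : ℕ) (q : ℕ → ℂ → ℂ) (c : ℂ) (r : ℝ)
    (hd : ∀ m, DifferentiableOn ℂ (q m) (ball c r)) (c₁ z₁ : ℂ) (hc₁ : c₁ ∈ ball c r)
    (hne : ∑ m ∈ Finset.range (N + 1), q m c₁ * (m * z₁ ^ (m - 1)) ≠ 0) :
    ∃ L : (ℂ × ℂ) ≃L[ℂ] (ℂ × ℂ), HasStrictFDerivAt (fun p : ℂ × ℂ => (p.1, ZC0_G N q p))
      (L : (ℂ × ℂ) →L[ℂ] (ℂ × ℂ)) (c₁, z₁) := by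
  have hA : AnalyticAt ℂ (ZC0_G N q) (c₁, z₁) := by
    unfold ZC0_G
    refine Finset.analyticAt_fun_sum _ fun m _ => ?_
    have h1 : AnalyticAt ℂ (q m) (c₁, z₁).1 :=
      (hd m).analyticAt (isOpen_ball.mem_nhds hc₁)
    exact (h1.comp analyticAt_fst).mul (analyticAt_snd.pow m)
  have hG := hA.hasStrictFDerivAt
  set G' := fderiv ℂ (ZC0_G N q) (c₁, z₁) with hG'
  set α : ℂ := G' (1, 0) with hα
  set β : ℂ := G' (0, 1) with hβ
  have hlin : ∀ x y : ℂ, G' (x, y) = α * x + β * y := by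
    intro x y
    have h1 : ((x, y) : ℂ × ℂ) = x • ((1, 0) : ℂ × ℂ) + y • ((0, 1) : ℂ × ℂ) := by
      ext <;> simp
    rw [h1, map_add, map_smul, map_smul, smul_eq_mul, smul_eq_mul, hα, hβ]
    ring
  have hβ0 : β ≠ 0 := by
    have h1 : HasDerivAt (fun z : ℂ => ZC0_G N q (c₁, z)) β z₁ := by
      have h2 : HasDerivAt (fun z : ℂ => ((c₁, z) : ℂ × ℂ)) (0, 1) z₁ :=
        (hasDerivAt_const z₁ c₁).prodMk (hasDerivAt_id z₁)
      exact hG.hasFDerivAt.comp_hasDerivAt z₁ h2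
    have h3 : HasDerivAt (fun z : ℂ => ZC0_G N q (c₁, z))
        (∑ m ∈ Finset.range (N + 1), q m c₁ * (m * z₁ ^ (m - 1))) z₁ := by
      unfold ZC0_G
      refine HasDerivAt.fun_sum fun m _ => ?_
      exact (hasDerivAt_pow m z₁).const_mul (q m c₁)
    rw [h1.unique h3]
    exact hne
  set f1 : (ℂ × ℂ) →L[ℂ] (ℂ × ℂ) := (ContinuousLinearMap.fst ℂ ℂ ℂ).prod G' with hf1
  set f2 : (ℂ × ℂ) →L[ℂ] (ℂ × ℂ) := (ContinuousLinearMap.fst ℂ ℂ ℂ).prod
    (β⁻¹ • (ContinuousLinearMap.snd ℂ ℂ ℂ - α • ContinuousLinearMap.fst ℂ ℂ ℂ)) with hf2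
  have hL : Function.LeftInverse f2 f1 := by
    rintro ⟨x, y⟩
    simp only [hf1, hf2, ContinuousLinearMap.prod_apply, ContinuousLinearMap.coe_fst',
      ContinuousLinearMap.smul_apply, ContinuousLinearMap.sub_apply, ContinuousLinearMap.coe_snd',
      smul_eq_mul, hlin]
    ext
    · rfl
    · simp only
      field_simp
      ring
  have hR : Function.RightInverse f2 f1 := by
    rintro ⟨x, y⟩
    simp only [hf1, hf2, ContinuousLinearMap.prod_apply, ContinuousLinearMap.coe_fst',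
      ContinuousLinearMap.smul_apply, ContinuousLinearMap.sub_apply, ContinuousLinearMap.coe_snd',
      smul_eq_mul, hlin]
    ext
    · rfl
    · simp only
      field_simp
      ring
  refine ⟨ContinuousLinearEquiv.equivOfInverse f1 f2 hL hR, ?_⟩
  have h1 : ((ContinuousLinearEquiv.equivOfInverse f1 f2 hL hR : (ℂ × ℂ) ≃L[ℂ] (ℂ × ℂ)) :
      (ℂ × ℂ) →L[ℂ] (ℂ × ℂ)) = f1 := by
    ext x <;> rfl
  rw [h1, hf1]
  exact hasStrictFDerivAt_fst.prodMk hG

/-- ZC0: holomorphic continuation of simple roots over a disc. -/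
theorem ZC0 : ZC0_stmt := by
  classical
  intro N c r P hr hP hd z₀ hz₀
  have hcc : c ∈ ball c r := mem_ball_self hr
  rcases Nat.eq_zero_or_pos N with hN0 | hN
  · exfalso
    obtain ⟨hm, hdeg, _⟩ := hP c hcc
    rw [hN0] at hdeg
    have h1 : P c = 1 := hm.natDegree_eq_zero.1 hdeg
    rw [h1] at hz₀
    simp at hz₀
  set a : ℕ → ℂ → ℂ := fun m c' => (P c').coeff m with ha
  set φ : OpenPartialHomeomorph ℂ ℂ := OpenPartialHomeomorph.univBall c r with hφ
  have hφs : φ.source = univ := OpenPartialHomeomorph.univBall_source c r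
  have hφt : φ.target = ball c r := OpenPartialHomeomorph.univBall_target c hr
  have hφm : ∀ x, φ x ∈ ball c r := fun x => by
    rw [← hφt]
    exact φ.map_source (by rw [hφs]; exact mem_univ x)
  have hφc : Continuous φ := OpenPartialHomeomorph.continuous_univBall c r
  have hφl : ∀ x, φ.symm (φ x) = x := fun x => φ.left_inv (by rw [hφs]; exact mem_univ x)
  have hφr : ∀ x ∈ ball c r, φ (φ.symm x) = x := fun x hx => φ.right_inv (by rw [hφt]; exact hx)
  have hac : ∀ m, ContinuousOn (a m) (ball c r) := fun m => (hd m).continuousOn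
  set q : ℕ → ℂ → ℂ := fun m x => a m (φ x) with hq
  have hqc : ∀ m, Continuous (q m) := fun m => (hac m).comp_continuous hφc hφm
  have hqN : ∀ x, q N x = 1 := by
    intro x
    obtain ⟨hm, hdeg, _⟩ := hP (φ x) (hφm x)
    have h1 : (P (φ x)).coeff (P (φ x)).natDegree = 1 := hm
    rw [hdeg] at h1
    exact h1
  have heval : ∀ c' ∈ ball c r, ∀ z, ZC0_G N a (c', z) = (P c').eval z := by
    intro c' hc' z
    rw [Polynomial.eval_eq_sum_range, (hP c' hc').2.1]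
    rfl
  have hder : ∀ c' ∈ ball c r, ∀ z,
      ∑ m ∈ Finset.range (N + 1), a m c' * (m * z ^ (m - 1)) = (P c').derivative.eval z := by
    intro c' hc' z
    have h1 : HasDerivAt (fun z : ℂ => ZC0_G N a (c', z))
        (∑ m ∈ Finset.range (N + 1), a m c' * (m * z ^ (m - 1))) z := by
      unfold ZC0_G
      refine HasDerivAt.fun_sum fun m _ => ?_
      exact (hasDerivAt_pow m z).const_mul (a m c')
    have h2 : (fun z : ℂ => ZC0_G N a (c', z)) = fun z => (P c').eval z := by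
      funext w
      exact heval c' hc' w
    rw [h2] at h1
    exact h1.unique ((P c').hasDerivAt z)
  set FF : ℂ × ℂ → ℂ × ℂ := fun p => (p.1, ZC0_G N q p) with hFF
  set F : ℂ × ℂ → ℂ × ℂ := fun p => (p.1, ZC0_G N a p) with hF
  have hGq : ∀ x z, ZC0_G N q (x, z) = ZC0_G N a (φ x, z) := fun x z => rfl
  have hstrict : ∀ c₁ ∈ ball c r, ∀ z₁, (P c₁).eval z₁ = 0 →
      ∃ L : (ℂ × ℂ) ≃L[ℂ] (ℂ × ℂ), HasStrictFDerivAt F (L : (ℂ × ℂ) →L[ℂ] (ℂ × ℂ)) (c₁, z₁) := by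
    intro c₁ hc₁ z₁ hz₁
    refine ZC0_strict N a c r hd c₁ z₁ hc₁ ?_
    rw [hder c₁ hc₁ z₁]
    exact (hP c₁ hc₁).2.2 z₁ hz₁
  have hcov : IsCoveringMapOn FF (univ ×ˢ ({0} : Set ℂ)) := by
    refine (ZC0_closed N hN q hqc hqN).isCoveringMapOn_of_isLocalHomeomorphOn ?_ ?_
    · rintro ⟨x, w⟩ ⟨_, hw⟩
      rw [mem_singleton_iff] at hw
      simp only at hw
      subst hw
      have hne : P (φ x) ≠ 0 := (hP (φ x) (hφm x)).1.ne_zero
      refine (((P (φ x)).roots.toFinset.finite_toSet).image (fun z => (x, z))).subset ?_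
      rintro ⟨x', z⟩ hxz
      rw [mem_preimage, mem_singleton_iff, Prod.mk.injEq] at hxz
      obtain ⟨h1, h2⟩ := hxz
      simp only at h1
      subst h1
      rw [hGq, heval _ (hφm x')] at h2
      refine ⟨z, ?_, rfl⟩
      rw [Finset.mem_coe, Multiset.mem_toFinset, Polynomial.mem_roots hne]
      exact h2
    · refine IsLocalHomeomorphOn.mk _ _ ?_
      rintro ⟨x, z⟩ ⟨_, hz⟩
      rw [mem_singleton_iff] at hz
      have hz' : (P (φ x)).eval z = 0 := by
        rw [← heval _ (hφm x), ← hGq]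
        exact hz
      obtain ⟨L, hL⟩ := hstrict (φ x) (hφm x) z hz'
      set e := hL.toOpenPartialHomeomorph F with he
      set Ψ : OpenPartialHomeomorph (ℂ × ℂ) (ℂ × ℂ) :=
        φ.prod (OpenPartialHomeomorph.refl ℂ) with hΨ
      have hΨa : ∀ p : ℂ × ℂ, Ψ p = (φ p.1, p.2) := fun p => rfl
      have hΨs : ∀ p : ℂ × ℂ, Ψ.symm p = (φ.symm p.1, p.2) := fun p => rfl
      refine ⟨Ψ.trans (e.trans Ψ.symm), ?_, ?_⟩
      · rw [OpenPartialHomeomorph.trans_source, OpenPartialHomeomorph.trans_source]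
        refine ⟨?_, ?_, ?_⟩
        · rw [hΨ, OpenPartialHomeomorph.prod_source, hφs]
          exact ⟨mem_univ _, mem_univ _⟩
        · exact hL.mem_toOpenPartialHomeomorph_source
        · rw [OpenPartialHomeomorph.symm_source, hΨ, OpenPartialHomeomorph.prod_target, hφt]
          exact ⟨hφm x, mem_univ _⟩
      · rintro ⟨x', z'⟩ _
        change FF (x', z') = Ψ.symm (e (Ψ (x', z')))
        rw [hΨa, he, HasStrictFDerivAt.toOpenPartialHomeomorph_coe, hΨs]
        change (x', ZC0_G N q (x', z')) = (φ.symm (φ x'), ZC0_G N a (φ x', z'))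
        rw [hφl, hGq]
  have hφ0 : φ 0 = c := OpenPartialHomeomorph.univBall_apply_zero c r
  obtain ⟨fl, ⟨hfl0, hfl⟩, _⟩ := hcov.existsUnique_continuousMap_lifts
    (A := ℂ) ⟨fun x : ℂ => ((x, 0) : ℂ × ℂ), by fun_prop⟩ (a₀ := 0) (e₀ := (0, z₀))
    (by
      change (((0 : ℂ), ZC0_G N q (0, z₀)) : ℂ × ℂ) = (0, 0)
      rw [hGq, hφ0, heval c hcc, hz₀])
    (fun x => ⟨mem_univ _, rfl⟩)
  have hfl1 : ∀ x, (fl x).1 = x := fun x => congrArg Prod.fst (congrFun hfl x)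
  have hfl2 : ∀ x, (P (φ x)).eval (fl x).2 = 0 := by
    intro x
    have h1 : ZC0_G N q (fl x) = 0 := congrArg Prod.snd (congrFun hfl x)
    rw [← heval _ (hφm x), ← hGq]
    have h2 : ((x, (fl x).2) : ℂ × ℂ) = fl x := by
      ext
      · exact (hfl1 x).symm
      · rfl
    rw [h2, h1]
  set z : ℂ → ℂ := fun c' => (fl (φ.symm c')).2 with hz
  have hzP : ∀ c' ∈ ball c r, (P c').eval (z c') = 0 := by
    intro c' hc'
    have h1 := hfl2 (φ.symm c')
    rw [hφr c' hc'] at h1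
    exact h1
  have hzc : ContinuousOn z (ball c r) := by
    have h1 : ContinuousOn φ.symm (ball c r) := by
      rw [← hφt]
      exact φ.continuousOn_symm
    exact continuous_snd.comp_continuousOn (fl.continuous.comp_continuousOn h1)
  refine ⟨z, ?_, ?_, hzP⟩
  · intro c₁ hc₁
    refine DifferentiableAt.differentiableWithinAt ?_
    obtain ⟨L, hL⟩ := hstrict c₁ hc₁ (z c₁) (hzP c₁ hc₁)
    have hzc1 : ContinuousAt z c₁ := hzc.continuousAt (isOpen_ball.mem_nhds hc₁)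
    have h1 : Tendsto (fun c' => (c', z c')) (𝓝 c₁) (𝓝 (c₁, z c₁)) :=
      (continuousAt_id.prodMk hzc1)
    have h2 := h1.eventually hL.eventually_left_inverse
    have h3 : ∀ᶠ c' in 𝓝 c₁, z c' = (hL.localInverse F L (c₁, z c₁) (c', 0)).2 := by
      filter_upwards [h2, isOpen_ball.mem_nhds hc₁] with c' h4 h5
      have h6 : F (c', z c') = (c', 0) := by
        change (c', ZC0_G N a (c', z c')) = (c', 0)
        rw [heval c' h5, hzP c' h5]
      rw [h6] at h4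
      rw [h4]
    have h7 : F (c₁, z c₁) = (c₁, 0) := by
      change (c₁, ZC0_G N a (c₁, z c₁)) = (c₁, 0)
      rw [heval c₁ hc₁, hzP c₁ hc₁]
    have h8 : DifferentiableAt ℂ (hL.localInverse F L (c₁, z c₁)) (c₁, 0) := by
      rw [← h7]
      exact hL.to_localInverse.hasFDerivAt.differentiableAt
    have h9 : DifferentiableAt ℂ (fun c' : ℂ => ((c', 0) : ℂ × ℂ)) c₁ := by fun_prop
    have h10 : DifferentiableAt ℂ
        (fun c' : ℂ => (hL.localInverse F L (c₁, z c₁) (c', 0)).2) c₁ := by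
      exact (DifferentiableAt.comp c₁ (f := fun c' : ℂ => ((c', 0) : ℂ × ℂ)) h8 h9).snd
    exact h10.congr_of_eventuallyEq h3
  · have h1 : φ.symm c = 0 := by
      rw [← hφ0, hφl]
    change (fl (φ.symm c)).2 = z₀
    rw [h1, hfl0]

end MPS
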