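import Pool.Agent.helper36.MP.SpecQ

/-!
# Project mp: (MP_af9036_an): MEAS2, the total loss of radius
-/

set_option autoImplicit false

open Complex Metric Set Filter Topology MeasureTheory

noncomputable section

namespace MPS

section
variable {n k : ℕ} [NeZero k] {c : ℂ} {b g : ZMod k → ℂ} {ψ : ZMod k → ℂ → ℂ}
  {R ε y ρ₁ : ℝ} {χ : ℂ → ℂ} {G1 : ℕ → ℂ → ℂ} {ps : ℕ} {T : ℕ → ℝ} {G : ℕ → ℂ → ℂ} {Q : ℕ}

theorem MEAS2_restrict (h : H2 n k c b g ψ R ε y ρ₁ χ G1 ps T G Q) {q : ℕ} (hq : q ≤ Q) :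
    H2 n k c b g ψ R ε y ρ₁ χ G1 ps T G q := by
  refine ⟨h.su2, ⟨h.sys.t0, fun p hp => h.sys.anti p (by omega), fun p hp => h.sys.low p (by omega),
    h.sys.g0, fun p hp => h.sys.diff p (by omega), fun p hp => h.sys.rel p (by omega),
    fun p hp => h.sys.val p (by omega), fun p h1 hp => h.sys.disj p h1 (by omega)⟩,
    hq.trans h.hQ⟩

theorem MEAS2_anti (h : H2 n k c b g ψ R ε y ρ₁ χ G1 ps T G Q) {p q : ℕ} (hpq : p ≤ q)
    (hq : q ≤ Q) : T q ≤ T p := by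
  induction q, hpq using Nat.le_induction with
  | base => exact le_rfl
  | succ q hpq ih => exact (h.sys.anti q (by omega)).trans (ih (by omega))

theorem MEAS2_iter (h : H2 n k c b g ψ R ε y ρ₁ χ G1 ps T G Q) {p : ℕ} (hp : p ≤ Q) {w : ℂ}
    (hw : w ∈ ball ((y : ℂ) * I) (T p)) {q : ℕ} (hq : q ≤ p) :
    (fun z : ℂ => z ^ n + c)^[q] (G p w) = G (p - q) w := by
  induction q with
  | zero => simp
  | succ q ih =>
    rw [Function.iterate_succ_apply', ih (by omega)]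
    have h1 : p - q = (p - (q + 1)) + 1 := by omega
    rw [h1]
    refine (h.sys.rel (p - (q + 1)) (by omega) w ?_).1
    rw [← h1]
    exact ball_subset_ball (MEAS2_anti h (Nat.sub_le _ _) hp) hw

theorem MEAS2_eps (h : H2 n k c b g ψ R ε y ρ₁ χ G1 ps T G Q) : 0 ≤ ε := by
  have h1 := h.su2.su.hE
  have h2 : 0 ≤ Real.log ‖rho n b‖ := Real.log_nonneg h.su2.su.rho1.le
  have h3 : 0 ≤ ∫ z in ball (0 : ℂ) R, ‖er n c b g z‖ := integral_nonneg fun _ => norm_nonneg _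
  have h4 := Real.pi_pos
  have h5 : 0 ≤ 2 * Real.pi * Real.log ‖rho n b‖ := by positivity
  linarith

/-- the radii of type (ii) at the level `q`. -/
def MEAS2_II (c : ℂ) (y ρ₁ : ℝ) (χ : ℂ → ℂ) (ps : ℕ) (T : ℕ → ℝ) (G : ℕ → ℂ → ℂ) (Q q : ℕ) :
    Set ℝ :=
  {r | 3 * ρ₁ / 4 < r ∧ r < T q ∧ (q < Q → T (q + 1) < r) ∧
    (1 ≤ q → q ≠ ps → Disjoint (G q '' ball ((y : ℂ) * I) r) (χ '' ball ((y : ℂ) * I) ρ₁)) ∧
    c ∈ G q '' ball ((y : ℂ) * I) r}

theorem MEAS2_diam (hEV2 : EV2_stmt) (h : H2 n k c b g ψ R ε y ρ₁ χ G1 ps T G Q) (hQk : Q < k)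
    (hε : ε ≤ ρ₁ ^ 2 / 4 ^ 200) {q : ℕ} (hq : q ≤ Q) :
    volume (MEAS2_II c y ρ₁ χ ps T G Q q) ≤ ENNReal.ofReal (ρ₁ / 32) := by
  refine (Real.volume_le_diam _).trans (Metric.ediam_le ?_)
  have key : ∀ r ∈ MEAS2_II c y ρ₁ χ ps T G Q q, ∀ r' ∈ MEAS2_II c y ρ₁ χ ps T G Q q, r < r' →
      r' - r ≤ ρ₁ / 32 := by
    rintro r ⟨_, _, _, _, w, hw, hwc⟩ r' ⟨h1', h2', h3', h4', _⟩ hrr
    have h5 := hEV2 n k c b g ψ R ε y ρ₁ χ G1 ps T G q (MEAS2_restrict h hq) (by omega) hε r' w h1'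
      h2'.le h4' (ball_subset_ball hrr.le hw) hwc
    rw [mem_ball, dist_eq_norm] at hw
    linarith
  intro r hr r' hr'
  rw [edist_dist]
  refine ENNReal.ofReal_le_ofReal ?_
  rw [Real.dist_eq]
  rcases lt_trichotomy r r' with h1 | h1 | h1
  · rw [abs_sub_comm, abs_of_pos (by linarith)]
    exact key r hr r' hr' h1
  · subst h1
    have := h.su2.r0
    simp only [sub_self, abs_zero]
    positivity
  · rw [abs_of_pos (by linarith)]
    exact key r' hr' r hr h1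

theorem MEAS2_pair (h : H2 n k c b g ψ R ε y ρ₁ χ G1 ps T G Q) {q₁ q₂ : ℕ} (h12 : q₁ < q₂)
    (h2 : q₂ ≤ Q) (n1 : (MEAS2_II c y ρ₁ χ ps T G Q q₁).Nonempty)
    (n2 : (MEAS2_II c y ρ₁ χ ps T G Q q₂).Nonempty) : q₂ = q₁ + ps := by
  obtain ⟨r₁, hr1, hr1T, hr1l, _, w, hw, hwc⟩ := n1
  obtain ⟨r₂, hr2, hr2T, _, hgood, w', hw', hwc'⟩ := n2
  have hwT : w ∈ ball ((y : ℂ) * I) (T q₁) := ball_subset_ball hr1T.le hw
  have hwT' : w' ∈ ball ((y : ℂ) * I) (T q₂) := ball_subset_ball hr2T.le hw'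
  have e1 := MEAS2_iter h (by omega : q₁ ≤ Q) hwT le_rfl
  have e2 := MEAS2_iter h h2 hwT' h12.le
  rw [hwc, Nat.sub_self, h.sys.g0] at e1
  rw [hwc', e1] at e2
  have hT0 : T q₁ ≤ ρ₁ := (MEAS2_anti h (Nat.zero_le q₁) (by omega)).trans h.sys.t0
  have hwρ : w ∈ ball ((y : ℂ) * I) ρ₁ := ball_subset_ball hT0 hwT
  by_contra hne
  rcases Nat.eq_zero_or_pos q₁ with h0 | h0
  · subst h0
    have hd := hgood (by omega) (by omega)
    rw [Set.disjoint_left] at hd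
    refine hd ⟨w', hw', rfl⟩ ⟨w, hwρ, ?_⟩
    rw [e2, Nat.sub_zero]
  · have hd := h.sys.disj (q₂ - q₁) (by omega) (by omega) (by omega)
    rw [Set.disjoint_left] at hd
    refine hd ⟨w', ?_, rfl⟩ ⟨w, hwρ, e2⟩
    exact ball_subset_ball (MEAS2_anti h (by omega) h2) hwT'

theorem MEAS2_card (h : H2 n k c b g ψ R ε y ρ₁ χ G1 ps T G Q) (F : Finset ℕ)
    (hF : ∀ q ∈ F, q ≤ Q ∧ (MEAS2_II c y ρ₁ χ ps T G Q q).Nonempty) : F.card ≤ 2 := by
  by_contra hcon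
  obtain ⟨a, ha, b', hb, c', hc, hab, hac, hbc⟩ := Finset.two_lt_card.1 (by omega : 2 < F.card)
  have key : ∀ p ∈ F, ∀ q ∈ F, p < q → q = p + ps := fun p hp q hq hpq =>
    MEAS2_pair h hpq (hF q hq).1 (hF p hp).2 (hF q hq).2
  have k1 := key a ha b' hb
  have k2 := key b' hb a ha
  have k3 := key a ha c' hc
  have k4 := key c' hc a ha
  have k5 := key b' hb c' hc
  have k6 := key c' hc b' hb
  omega

end

/-- MEAS2: the total loss of radius. -/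
theorem MEAS2 (hMU2 : MU2_stmt) (hREACH2 : REACH2_stmt) (hEV2 : EV2_stmt) (hCHEB : CHEB_stmt) :
    MEAS2_stmt := by
  classical
  intro n k _ c b g ψ R ε y ρ₁ χ G1 ps T G Q h hQk hε hT0 hfail t ht1 ht2 hfailQ
  have hρ : 0 < ρ₁ := h.su2.r0
  have hε0 : 0 ≤ ε := MEAS2_eps h
  obtain ⟨μ, hμ, hMu⟩ := hMU2 n k c b g ψ R ε y ρ₁ χ G1 ps T G Q h
  have hε7 : ε ≤ ρ₁ ^ 2 / 10 ^ 7 := by
    refine hε.trans ?_
    gcongr
    norm_num
  -- the set of type (i)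
  set S1 : Set ℝ := {r | ENNReal.ofReal ρ₁ ≤ PsiM μ (ρ₁ / 8) (ρ₁ - r)} with hS1
  have hS1v : volume S1 ≤ ENNReal.ofReal (ρ₁ / 16) := by
    have h1 := hCHEB μ (ρ₁ / 8) (4000 * ε) ρ₁ (by positivity) (by positivity) hρ hμ
    have h2 : volume S1 = volume {s : ℝ | ENNReal.ofReal ρ₁ ≤ PsiM μ (ρ₁ / 8) s} :=
      MeasurePreserving.measure_preimage_equiv (f := MeasurableEquiv.subLeft ρ₁)
        (Measure.measurePreserving_sub_left (volume : Measure ℝ) ρ₁)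
        {s : ℝ | ENNReal.ofReal ρ₁ ≤ PsiM μ (ρ₁ / 8) s}
    rw [h2]
    refine h1.trans (ENNReal.ofReal_le_ofReal ?_)
    have hπ : (3 : ℝ) < Real.pi := Real.pi_gt_three
    rw [div_le_iff₀ (by positivity)]
    have h3 : ε ≤ ρ₁ ^ 2 / 1000000 := by
      refine hε7.trans ?_
      gcongr
      norm_num
    have h4 : ρ₁ ^ 2 * ρ₁ * 3 ≤ ρ₁ ^ 2 * ρ₁ * Real.pi := by gcongr
    have h5 : ρ₁ * ε ≤ ρ₁ * (ρ₁ ^ 2 / 1000000) := by gcongr
    have h6 : 0 < ρ₁ ^ 2 * ρ₁ := by positivity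
    nlinarith
  set F : Finset ℕ := (Finset.range (Q + 1)).filter
    fun q => (MEAS2_II c y ρ₁ χ ps T G Q q).Nonempty with hF
  have hFm : ∀ q ∈ F, q ≤ Q ∧ (MEAS2_II c y ρ₁ χ ps T G Q q).Nonempty := by
    intro q hq
    rw [hF, Finset.mem_filter, Finset.mem_range] at hq
    exact ⟨by omega, hq.2⟩
  have hFc : F.card ≤ 2 := MEAS2_card h F hFm
  set D : Set ℝ := T '' ((Finset.range (Q + 1) : Finset ℕ) : Set ℕ) with hD
  have hDv : volume D = 0 := ((Finset.finite_toSet _).image T).measure_zero _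
  have hcov : Ioo t ρ₁ ⊆ S1 ∪ ((⋃ q ∈ F, MEAS2_II c y ρ₁ χ ps T G Q q) ∪ D) := by
    intro r hr
    by_cases hrD : r ∈ D
    · exact Or.inr (Or.inr hrD)
    have hrne : ∀ q, q ≤ Q → r ≠ T q := by
      intro q hq hrq
      exact hrD ⟨q, by simpa using Nat.lt_succ_of_le hq, hrq.symm⟩
    -- the maximal q with r < T q
    obtain ⟨q, hqQ, hrq, hlow⟩ : ∃ q, q ≤ Q ∧ r < T q ∧ (q < Q → T (q + 1) < r) := by
      have hex : ∃ q ∈ (Finset.range (Q + 1)).filter (fun q => r < T q),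
          ∀ p ∈ (Finset.range (Q + 1)).filter (fun q => r < T q), p ≤ q :=
        Finset.exists_max_image _ (fun q => q) ⟨0, by simp [hT0, hr.2]⟩
      obtain ⟨q, hq, hmax⟩ := hex
      rw [Finset.mem_filter, Finset.mem_range] at hq
      refine ⟨q, by omega, hq.2, fun hqQ => ?_⟩
      by_contra hcon
      have h1 : r < T (q + 1) := lt_of_le_of_ne (not_lt.1 hcon) (hrne (q + 1) (by omega))
      have h2 := hmax (q + 1) (by
        rw [Finset.mem_filter, Finset.mem_range]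
        exact ⟨by omega, h1⟩)
      omega
    have hF2 : Fail2 c y ρ₁ χ ps G q r := by
      rcases Nat.lt_or_ge q Q with h1 | h1
      · exact hfail q h1 r (hlow h1) hrq
      · have h2 : q = Q := by omega
        subst h2
        exact hfailQ r hr.1 hrq
    have hr3 : 3 * ρ₁ / 4 < r := ht1.trans_lt hr.1
    by_cases hA : 1 ≤ q ∧ q ≠ ps ∧
        ¬ Disjoint (G q '' ball ((y : ℂ) * I) r) (χ '' ball ((y : ℂ) * I) ρ₁)
    · left
      exact hREACH2 n k c b g ψ R ε y ρ₁ χ G1 ps T G Q μ h hε7 hMu q r hA.1 (by omega) hqQ hA.2.1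
        hr3 hrq.le hA.2.2
    · right
      left
      have hc : c ∈ G q '' ball ((y : ℂ) * I) r := by
        rcases hF2 with h1 | h1
        · exact absurd h1 hA
        · exact h1
      have hmem : r ∈ MEAS2_II c y ρ₁ χ ps T G Q q := by
        refine ⟨hr3, hrq, hlow, fun h1 h2 => ?_, hc⟩
        by_contra h3
        exact hA ⟨h1, h2, h3⟩
      have hqF : q ∈ F := by
        rw [hF, Finset.mem_filter, Finset.mem_range]
        exact ⟨by omega, r, hmem⟩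
      exact mem_biUnion hqF hmem
  have hvol : volume (Ioo t ρ₁) ≤ ENNReal.ofReal (ρ₁ / 16 + 2 * (ρ₁ / 32)) := by
    calc volume (Ioo t ρ₁) ≤ volume (S1 ∪ ((⋃ q ∈ F, MEAS2_II c y ρ₁ χ ps T G Q q) ∪ D)) :=
          measure_mono hcov
      _ ≤ volume S1 + volume ((⋃ q ∈ F, MEAS2_II c y ρ₁ χ ps T G Q q) ∪ D) :=
          measure_union_le _ _
      _ ≤ volume S1 + (volume (⋃ q ∈ F, MEAS2_II c y ρ₁ χ ps T G Q q) + volume D) := by
          gcongr
          exact measure_union_le _ _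
      _ ≤ ENNReal.ofReal (ρ₁ / 16) + (∑ q ∈ F, ENNReal.ofReal (ρ₁ / 32) + 0) := by
          refine add_le_add hS1v (add_le_add ?_ hDv.le)
          refine (measure_biUnion_finset_le F _).trans (Finset.sum_le_sum fun q hq => ?_)
          exact MEAS2_diam hEV2 h hQk hε (hFm q hq).1
      _ ≤ ENNReal.ofReal (ρ₁ / 16) + 2 * ENNReal.ofReal (ρ₁ / 32) := by
          rw [add_zero, Finset.sum_const, nsmul_eq_mul]
          gcongr
          exact_mod_cast hFc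
      _ = ENNReal.ofReal (ρ₁ / 16 + 2 * (ρ₁ / 32)) := by
          rw [ENNReal.ofReal_add (by positivity) (by positivity),
            ENNReal.ofReal_mul (by norm_num)]
          norm_num
  rw [Real.volume_Ioo, ENNReal.ofReal_le_ofReal_iff (by positivity)] at hvol
  linarith

end MPS
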